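import Mathlib

set_option autoImplicit false

open Finset

namespace Pool.Agent.Work.MP_f2eb3d_co.Old.WidthOne

/-- The value `⟨a, x⟩` of an integer covector `a` at a real point `x`. -/
def pairing {n : ℕ} (a : Fin n → ℤ) (x : Fin n → ℝ) : ℝ := ∑ i, (a i : ℝ) * x i

/-- An `n`-dimensional lattice polytope in `ℝⁿ`: the convex hull of finitely many points of `ℤⁿ`,
whose affine span is all of `ℝⁿ`. -/
def IsLatticePolytope {n : ℕ} (P : Set (Fin n → ℝ)) : Prop :=
  (∃ V : Finset (Fin n → ℤ),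
    P = convexHull ℝ ((fun (v : Fin n → ℤ) (i : Fin n) => (v i : ℝ)) '' (V : Set (Fin n → ℤ)))) ∧
  affineSpan ℝ P = ⊤

/-- `⟨a, x⟩ ≥ b` is a facet inequality of `P`: `a` is a primitive integer covector, `b` is an
integer, the inequality is valid on `P`, and the face it cuts out is nonempty of dimension
`n - 1`. -/
def IsFacetIneq {n : ℕ} (P : Set (Fin n → ℝ)) (a : Fin n → ℤ) (b : ℤ) : Prop :=
  Finset.univ.gcd a = 1 ∧ (∀ x ∈ P, (b : ℝ) ≤ pairing a x) ∧
  {x ∈ P | pairing a x = b}.Nonempty ∧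
  Module.finrank ℝ (vectorSpan ℝ {x ∈ P | pairing a x = b}) + 1 = n

/-- The adjoint polytope `P^(s)`: points of lattice distance at least `s` from every facet. -/
def adjoint {n : ℕ} (P : Set (Fin n → ℝ)) (s : ℝ) : Set (Fin n → ℝ) :=
  {x | ∀ (a : Fin n → ℤ) (b : ℤ), IsFacetIneq P a b → s ≤ pairing a x - b}

/-- The `ℚ`-codegree `μ(P) = (sup {s > 0 : P^(s) ≠ ∅})⁻¹`. -/
noncomputable def qCodegree {n : ℕ} (P : Set (Fin n → ℝ)) : ℝ :=
  (sSup {s : ℝ | 0 < s ∧ (adjoint P s).Nonempty})⁻¹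

/-- `P` has lattice width one: some nonzero integer covector has `max - min = 1` on `P`. -/
def HasLatticeWidthOne {n : ℕ} (P : Set (Fin n → ℝ)) : Prop :=
  ∃ l : Fin n → ℤ, l ≠ 0 ∧ ∃ M m : ℝ,
    IsGreatest (pairing l '' P) M ∧ IsLeast (pairing l '' P) m ∧ M - m = 1

lemma pairing_linear {n : ℕ} (a : Fin n → ℤ) : IsLinearMap ℝ (pairing a) where
  map_add x y := by simp [pairing, mul_add, Finset.sum_add_distrib]
  map_smul c x := by simp [pairing, Finset.mul_sum, mul_left_comm]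

lemma pairing_continuous {n : ℕ} (a : Fin n → ℤ) : Continuous (pairing a) := by
  unfold pairing
  fun_prop

lemma pairing_int {n : ℕ} (a v : Fin n → ℤ) :
    pairing a (fun i => (v i : ℝ)) = ((∑ i, a i * v i : ℤ) : ℝ) := by
  simp [pairing]

/-- If `P` does not have width one, every facet has a point of `P` at distance at least two. -/
lemma exists_far {n : ℕ} {P : Set (Fin n → ℝ)} (hP : IsLatticePolytope P)
    (hw : ¬ HasLatticeWidthOne P) {a : Fin n → ℤ} {b : ℤ} (h : IsFacetIneq P a b) :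
    ∃ v ∈ P, 2 ≤ pairing a v - b := by
  obtain ⟨⟨V, hV⟩, hspan⟩ := hP
  obtain ⟨hgcd, hval, hne, hdim⟩ := h
  by_contra hfar
  push Not at hfar
  have hmem : ∀ v ∈ V, (fun i => (v i : ℝ)) ∈ P := by
    intro v hv
    rw [hV]
    exact subset_convexHull ℝ _ ⟨v, hv, rfl⟩
  have ha : a ≠ 0 := by
    rintro rfl
    have : (Finset.univ : Finset (Fin n)).gcd (0 : Fin n → ℤ) = 0 :=
      Finset.gcd_eq_zero_iff.mpr fun _ _ => rfl
    rw [this] at hgcd
    exact zero_ne_one hgcd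
  have hbound : ∀ c : ℤ, (∀ v ∈ V, ∑ i, a i * v i ≤ c) → ∀ x ∈ P, pairing a x ≤ c := by
    intro c hc x hx
    rw [hV] at hx
    refine convexHull_min (t := {x | pairing a x ≤ (c : ℝ)}) ?_
      (convex_halfSpace_le (pairing_linear a) _) hx
    rintro _ ⟨v, hv, rfl⟩
    change pairing a (fun i => (v i : ℝ)) ≤ c
    rw [pairing_int]
    exact_mod_cast hc v hv
  have h1 : ∀ v ∈ V, ∑ i, a i * v i ≤ b + 1 := by
    intro v hv
    have := hfar _ (hmem v hv)
    rw [pairing_int] at this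
    have h2 : (∑ i, a i * v i) - b < 2 := by exact_mod_cast this
    omega
  by_cases hex : ∃ v ∈ V, ∑ i, a i * v i = b + 1
  · obtain ⟨v, hv, hvb⟩ := hex
    obtain ⟨x, hxP, hxb⟩ := hne
    refine hw ⟨a, ha, ((b + 1 : ℤ) : ℝ), b, ⟨⟨_, hmem v hv, ?_⟩, ?_⟩, ⟨⟨x, hxP, hxb⟩, ?_⟩, ?_⟩
    · rw [pairing_int, hvb]
    · rintro _ ⟨y, hy, rfl⟩
      exact hbound _ h1 y hy
    · rintro _ ⟨y, hy, rfl⟩
      exact hval y hy
    · push_cast; ring
  · push Not at hex
    have h0 : ∀ v ∈ V, ∑ i, a i * v i ≤ b := by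
      intro v hv
      have := h1 v hv
      have := hex v hv
      omega
    have hface : {x ∈ P | pairing a x = b} = P := by
      ext x
      exact ⟨fun hx => hx.1, fun hx => ⟨hx, le_antisymm (hbound _ h0 x hx) (hval x hx)⟩⟩
    rw [hface, AffineSubspace.vectorSpan_eq_top_of_affineSpan_eq_top ℝ _ _ hspan] at hdim
    simp at hdim

/-- If `P` does not have width one, the adjoint polytope at `2 / (n + 1)` is nonempty. -/
lemma adjoint_nonempty {n : ℕ} {P : Set (Fin n → ℝ)} (hP : IsLatticePolytope P)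
    (hw : ¬ HasLatticeWidthOne P) : (adjoint P (2 / ((n : ℝ) + 1))).Nonempty := by
  classical
  have hfar := fun (p : {p : (Fin n → ℤ) × ℤ // IsFacetIneq P p.1 p.2}) => exists_far hP hw p.2
  choose v hvP hv using hfar
  obtain ⟨⟨V, hV⟩, -⟩ := hP
  have hconv : Convex ℝ P := hV ▸ convex_convexHull ℝ _
  have hcomp : IsCompact P := hV ▸ ((V.finite_toSet.image _).isCompact_convexHull ℝ)
  have key := Convex.helly_theorem_compact' (𝕜 := ℝ)
    (F := fun (p : {p : (Fin n → ℤ) × ℤ // IsFacetIneq P p.1 p.2}) =>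
      P ∩ {x | 2 / ((n : ℝ) + 1) + p.1.2 ≤ pairing p.1.1 x})
    (fun p => hconv.inter (convex_halfSpace_ge (pairing_linear _) _))
    (fun p => hcomp.inter_right (isClosed_le continuous_const (pairing_continuous _)))
    (by
      intro I hI
      rcases I.eq_empty_or_nonempty with rfl | hIne
      · simp
      have hcard : (0 : ℝ) < I.card := by exact_mod_cast hIne.card_pos
      have hI' : (I.card : ℝ) ≤ n + 1 := by
        have : I.card ≤ n + 1 := by simpa using hI
        exact_mod_cast this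
      have hw1 : ∑ _i ∈ I, (I.card : ℝ)⁻¹ = 1 := by
        rw [Finset.sum_const, nsmul_eq_mul, mul_inv_cancel₀ hcard.ne']
      refine ⟨∑ i ∈ I, (I.card : ℝ)⁻¹ • v i, ?_⟩
      simp only [Set.mem_iInter]
      intro j hj
      refine ⟨hconv.sum_mem (fun _ _ => by positivity) hw1 fun i _ => hvP i, ?_⟩
      change _ ≤ pairing j.1.1 _
      have hlin : pairing j.1.1 (∑ i ∈ I, (I.card : ℝ)⁻¹ • v i)
          = ∑ i ∈ I, (I.card : ℝ)⁻¹ * pairing j.1.1 (v i) := by
        have := map_sum ((pairing_linear j.1.1).mk' _) (fun i => (I.card : ℝ)⁻¹ • v i) I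
        rw [IsLinearMap.mk'_apply] at this
        rw [this]
        refine Finset.sum_congr rfl fun i _ => ?_
        rw [IsLinearMap.mk'_apply, (pairing_linear j.1.1).map_smul, smul_eq_mul]
      have hsplit : ∑ i ∈ I, (I.card : ℝ)⁻¹ * pairing j.1.1 (v i)
          = ∑ i ∈ I, (I.card : ℝ)⁻¹ * (pairing j.1.1 (v i) - j.1.2) + j.1.2 := by
        simp only [mul_sub, Finset.sum_sub_distrib]
        rw [← Finset.sum_mul I (fun _ => (I.card : ℝ)⁻¹), hw1]
        ring
      have hsingle : (I.card : ℝ)⁻¹ * (pairing j.1.1 (v j) - j.1.2)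
          ≤ ∑ i ∈ I, (I.card : ℝ)⁻¹ * (pairing j.1.1 (v i) - j.1.2) :=
        Finset.single_le_sum (f := fun i => (I.card : ℝ)⁻¹ * (pairing j.1.1 (v i) - j.1.2))
          (fun i _ => mul_nonneg (by positivity) (sub_nonneg.mpr (j.2.2.1 _ (hvP i)))) hj
      have h2 : 2 / ((n : ℝ) + 1) ≤ (I.card : ℝ)⁻¹ * (pairing j.1.1 (v j) - j.1.2) := by
        calc 2 / ((n : ℝ) + 1) ≤ 2 / (I.card : ℝ) := by gcongr
          _ = (I.card : ℝ)⁻¹ * 2 := by ring
          _ ≤ _ := by gcongr; exact hv j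
      rw [hlin, hsplit]
      linarith)
  obtain ⟨x, hx⟩ := key
  refine ⟨x, fun a b hab => ?_⟩
  have := (Set.mem_iInter.mp hx ⟨(a, b), hab⟩).2
  have h2 : 2 / ((n : ℝ) + 1) + b ≤ pairing a x := this
  linarith

/-- Every `n`-dimensional lattice polytope with `μ(P) > (n + 1) / 2` has lattice width one. -/
theorem result (n : ℕ) (_hn : 1 ≤ n) (P : Set (Fin n → ℝ)) (hP : IsLatticePolytope P)
    (hμ : ((n : ℝ) + 1) / 2 < qCodegree P) : HasLatticeWidthOne P := by
  by_contra hw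
  have hne := adjoint_nonempty hP hw
  have hpos : (0 : ℝ) < 2 / ((n : ℝ) + 1) := by positivity
  unfold qCodegree at hμ
  by_cases hb : BddAbove {s : ℝ | 0 < s ∧ (adjoint P s).Nonempty}
  · have h1 : 2 / ((n : ℝ) + 1) ≤ sSup {s : ℝ | 0 < s ∧ (adjoint P s).Nonempty} :=
      le_csSup hb ⟨hpos, hne⟩
    have h2 := inv_anti₀ hpos h1
    rw [inv_div] at h2
    linarith
  · rw [Real.sSup_of_not_bddAbove hb, inv_zero] at hμ
    have : (0 : ℝ) < ((n : ℝ) + 1) / 2 := by positivity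
    linarith

end Pool.Agent.Work.MP_f2eb3d_co.Old.WidthOne
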